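import Pool.Agent.Y404.GccBounds

/-! # The positive semidefinite graph complement conjecture for regular, nearly regular and split
graphs, with additive loss for degenerate graphs -/

set_option autoImplicit false

namespace Pool.Agent.Results.MP_a2d8aa_co.RegularSplitDegenerate

open Pool.Agent.Y404.GccSap Pool.Agent.Y404.GccBounds

/-- `S₊(G)`: the real positive semidefinite matrices whose off-diagonal nonzero pattern is exactly
the edge set of `G`; the diagonal is unrestricted. -/
def SPlus {n : ℕ} (G : SimpleGraph (Fin n)) : Set (Matrix (Fin n) (Fin n) ℝ) :=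
  {A | A.PosSemidef ∧ ∀ i j : Fin n, i ≠ j → (A i j ≠ 0 ↔ G.Adj i j)}

/-- The positive semidefinite minimum rank `mr₊(G)`. -/
noncomputable def mrPlus {n : ℕ} (G : SimpleGraph (Fin n)) : ℕ :=
  sInf {k : ℕ | ∃ A ∈ SPlus G, A.rank = k}

theorem mrPlus_le {n : ℕ} (G : SimpleGraph (Fin n)) (r : ℕ) (h : HasSap G r) : mrPlus G ≤ r := by
  obtain ⟨A, h1, h2, _, h4⟩ := h
  have h5 : mrPlus G ≤ A.rank := Nat.sInf_le ⟨A, ⟨h1, h2⟩, rfl⟩
  exact h5.trans h4

theorem mrPlus_le_n {n : ℕ} (G : SimpleGraph (Fin n)) : mrPlus G ≤ n := by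
  have h := mrPlus_le G _ (sap_delta G)
  rw [Fintype.card_fin] at h
  omega

open Classical in
theorem core_sum {n : ℕ} (G : SimpleGraph (Fin n)) (A B : Finset (Fin n)) (d e : ℕ)
    (hA : A.Nonempty) (hB : B.Nonempty)
    (h1 : ∀ x ∈ A, d ≤ (A.filter fun y => G.Adj x y).card)
    (h2 : ∀ x ∈ B, e ≤ (B.filter fun y => Gᶜ.Adj x y).card) :
    mrPlus G + mrPlus Gᶜ + d + e ≤ 2 * n := by
  have h3 := core_sap (Fin n) G A d hA (by intro x hx; convert h1 x hx)
  have h4 := core_sap (Fin n) Gᶜ B e hB (by intro x hx; convert h2 x hx)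
  rw [Fintype.card_fin] at h3 h4
  have h5 := mrPlus_le G _ h3.1
  have h6 := mrPlus_le Gᶜ _ h4.1
  have h7 := h3.2
  have h8 := h4.2
  omega

open Classical in
theorem criterion {n : ℕ} (G : SimpleGraph (Fin n)) (A B : Finset (Fin n)) (D : ℕ)
    (hA : A.Nonempty) (hB : B.Nonempty)
    (h1 : ∀ x ∈ B, (B.filter fun y => G.Adj x y).card ≤ D)
    (h2 : ∀ x ∈ A, D + (n - B.card) ≤ (A.filter fun y => G.Adj x y).card + 1) :
    mrPlus G + mrPlus Gᶜ ≤ n + 2 := by
  have h3 := core_sum G A B (D + (n - B.card) - 1) (B.card - 1 - D) hA hB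
    (by intro x hx; have := h2 x hx; omega) (by
      intro x hx
      have h4 : (B.filter fun y => Gᶜ.Adj x y) = (B.erase x) \ (B.filter fun y => G.Adj x y) := by
        ext y
        simp only [Finset.mem_filter, SimpleGraph.compl_adj, Finset.mem_sdiff, Finset.mem_erase]
        constructor
        · rintro ⟨hy, hne, hadj⟩
          exact ⟨⟨fun h => hne h.symm, hy⟩, fun h => hadj h.2⟩
        · rintro ⟨⟨hne, hy⟩, h⟩
          exact ⟨hy, fun h' => hne h'.symm, fun h' => h ⟨hy, h'⟩⟩
      rw [h4]
      have h5 := Finset.le_card_sdiff (B.filter fun y => G.Adj x y) (B.erase x)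
      rw [Finset.card_erase_of_mem hx] at h5
      have h6 := h1 x hx
      omega)
  have h7 : B.card ≤ n := by
    have := Finset.card_le_univ B
    rwa [Fintype.card_fin] at this
  have h8 : 0 < B.card := Finset.card_pos.2 hB
  omega

open Classical in
theorem degenerate {n : ℕ} (G : SimpleGraph (Fin n)) (a : ℕ)
    (ha : ∀ S : Finset (Fin n), S.Nonempty → ∃ x ∈ S, (S.filter fun y => G.Adj x y).card ≤ a) :
    mrPlus G + mrPlus Gᶜ ≤ n + 1 + a := by
  rcases Nat.eq_zero_or_pos n with rfl | hn
  · have h1 := mrPlus_le_n G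
    have h2 := mrPlus_le_n Gᶜ
    omega
  have hP : ∃ a : ℕ, ∀ S : Finset (Fin n), S.Nonempty →
      ∃ x ∈ S, (S.filter fun y => G.Adj x y).card ≤ a := ⟨a, ha⟩
  have h0 : Nat.find hP ≤ a := Nat.find_min' hP ha
  have hcore : ∃ S : Finset (Fin n), S.Nonempty ∧
      ∀ x ∈ S, Nat.find hP ≤ (S.filter fun y => G.Adj x y).card := by
    rcases Nat.eq_zero_or_pos (Nat.find hP) with h0 | h0
    · refine ⟨Finset.univ, ⟨⟨0, hn⟩, Finset.mem_univ _⟩, fun x _ => ?_⟩
      rw [h0]
      exact Nat.zero_le _
    · have h1 := Nat.find_min hP (m := Nat.find hP - 1) (by omega)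
      push Not at h1
      obtain ⟨S, hS, h2⟩ := h1
      refine ⟨S, hS, fun x hx => ?_⟩
      have := h2 x hx
      omega
  obtain ⟨S, hS, hd⟩ := hcore
  have h3 := core_sap (Fin n) G S (Nat.find hP) hS (by intro x hx; convert hd x hx)
  have h4 := degen_compl_sap (Fin n) G (Nat.find hP) (by
    have := Nat.find_spec hP
    convert this)
  rw [Fintype.card_fin] at h3
  have h5 := mrPlus_le G _ h3.1
  have h6 := mrPlus_le Gᶜ _ h4
  have h7 := h3.2
  omega

open Classical in
/-- Let `G` be a graph on `n` vertices.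
(1) If `G[A]` has minimum degree at least `d` and `Ḡ[B]` has minimum degree at least `e`, for
nonempty vertex sets `A, B`, then `mr₊(G) + mr₊(Ḡ) ≤ 2n - d - e`.
(2) `mr₊(G) + mr₊(Ḡ) ≤ n + 2` whenever there are nonempty vertex sets `A, B` such that
`δ(G[A]) ≥ Δ(G[B]) + |V \ B| - 1`.
(3) `mr₊(G) + mr₊(Ḡ) ≤ n + 1 + (Δ(G) - δ(G))`; so it is at most `n + 1` for regular graphs and at
most `n + 2` for graphs with `Δ(G) ≤ δ(G) + 1`.
(4) `mr₊(G) + mr₊(Ḡ) ≤ n + 2` for all split graphs (`V` is the union of a clique `K` and an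
independent set).
(5) `mr₊(G) + mr₊(Ḡ) ≤ n + 1 + a` for `a`-degenerate graphs (each nonempty vertex set `S` contains
a vertex with at most `a` neighbours in `S`). -/
theorem result :
    (∀ (n : ℕ) (G : SimpleGraph (Fin n)) (A B : Finset (Fin n)) (d e : ℕ),
      A.Nonempty → B.Nonempty →
      (∀ x ∈ A, d ≤ (A.filter fun y => G.Adj x y).card) →
      (∀ x ∈ B, e ≤ (B.filter fun y => Gᶜ.Adj x y).card) →
      mrPlus G + mrPlus Gᶜ + d + e ≤ 2 * n) ∧
    (∀ (n : ℕ) (G : SimpleGraph (Fin n)) (A B : Finset (Fin n)) (D : ℕ),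
      A.Nonempty → B.Nonempty →
      (∀ x ∈ B, (B.filter fun y => G.Adj x y).card ≤ D) →
      (∀ x ∈ A, D + (n - B.card) ≤ (A.filter fun y => G.Adj x y).card + 1) →
      mrPlus G + mrPlus Gᶜ ≤ n + 2) ∧
    (∀ (n : ℕ) (G : SimpleGraph (Fin n)), 1 ≤ n →
      mrPlus G + mrPlus Gᶜ + G.minDegree ≤ n + 1 + G.maxDegree) ∧
    (∀ (n : ℕ) (G : SimpleGraph (Fin n)) (K : Finset (Fin n)),
      (∀ x ∈ K, ∀ y ∈ K, x ≠ y → G.Adj x y) → (∀ x, x ∉ K → ∀ y, y ∉ K → ¬ G.Adj x y) →
      mrPlus G + mrPlus Gᶜ ≤ n + 2) ∧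
    (∀ (n : ℕ) (G : SimpleGraph (Fin n)) (a : ℕ),
      (∀ S : Finset (Fin n), S.Nonempty → ∃ x ∈ S, (S.filter fun y => G.Adj x y).card ≤ a) →
      mrPlus G + mrPlus Gᶜ ≤ n + 1 + a) := by
  refine ⟨fun n G A B d e hA hB h1 h2 => core_sum G A B d e hA hB h1 h2,
    fun n G A B D hA hB h1 h2 => criterion G A B D hA hB h1 h2, ?_, ?_,
    fun n G a ha => degenerate G a ha⟩
  · intro n G hn
    have : Nonempty (Fin n) := ⟨⟨0, hn⟩⟩
    have h1 := mrPlus_le G _ (sap_delta G)
    have h2 := mrPlus_le Gᶜ _ (sap_delta Gᶜ)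
    have h3 := minDegree_compl G
    have h4 := G.minDegree_lt_card
    have h5 := Gᶜ.minDegree_lt_card
    rw [Fintype.card_fin] at h1 h2 h3 h4 h5
    have e1 : @SimpleGraph.minDegree _ G _ (fun a b => Classical.propDecidable _) =
        G.minDegree := by congr
    have e2 : @SimpleGraph.minDegree _ Gᶜ _ (fun a b => Classical.propDecidable _) =
        Gᶜ.minDegree := by congr
    rw [e1] at h1
    rw [e2] at h2
    omega
  · intro n G K hK hI
    rcases Nat.eq_zero_or_pos n with rfl | hn
    · have h1 := mrPlus_le_n G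
      have h2 := mrPlus_le_n Gᶜ
      omega
    have h0 : Fintype.card (Fin n) = n := Fintype.card_fin n
    by_cases hKne : K.Nonempty
    · by_cases hBne : (Finset.univ \ K).Nonempty
      · apply criterion G K (Finset.univ \ K) 0 hKne hBne
        · intro x hx
          rw [Finset.mem_sdiff] at hx
          rw [Nat.le_zero, Finset.card_eq_zero, Finset.filter_eq_empty_iff]
          intro y hy
          rw [Finset.mem_sdiff] at hy
          exact hI x hx.2 y hy.2
        · intro x hx
          have h1 : (K.filter fun y => G.Adj x y) = K.erase x := by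
            ext y
            rw [Finset.mem_filter, Finset.mem_erase]
            constructor
            · rintro ⟨hy, hadj⟩
              exact ⟨hadj.ne', hy⟩
            · rintro ⟨hne, hy⟩
              exact ⟨hy, hK x hx y hy hne.symm⟩
          rw [h1, Finset.card_erase_of_mem hx, Finset.card_sdiff_of_subset (Finset.subset_univ K),
            Finset.card_univ, h0]
          have h2 : K.card ≤ n := by
            have := Finset.card_le_univ K
            rwa [h0] at this
          have h3 : 0 < K.card := Finset.card_pos.2 hKne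
          omega
      · rw [Finset.not_nonempty_iff_eq_empty, Finset.sdiff_eq_empty_iff_subset] at hBne
        have hall : ∀ x : Fin n, x ∈ K := fun x => hBne (Finset.mem_univ x)
        apply criterion G Finset.univ {⟨0, hn⟩} 0 ⟨⟨0, hn⟩, Finset.mem_univ _⟩
          (Finset.singleton_nonempty _)
        · intro x hx
          rw [Finset.mem_singleton] at hx
          rw [Nat.le_zero, Finset.card_eq_zero, Finset.filter_eq_empty_iff]
          intro y hy
          rw [Finset.mem_singleton] at hy
          rw [hx, hy]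
          exact G.irrefl
        · intro x _
          have h1 : (Finset.univ.filter fun y => G.Adj x y) = Finset.univ.erase x := by
            ext y
            rw [Finset.mem_filter, Finset.mem_erase]
            constructor
            · rintro ⟨hy, hadj⟩
              exact ⟨hadj.ne', hy⟩
            · rintro ⟨hne, hy⟩
              exact ⟨hy, hK x (hall x) y (hall y) hne.symm⟩
          rw [h1, Finset.card_erase_of_mem (Finset.mem_univ x), Finset.card_univ, h0,
            Finset.card_singleton]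
          omega
    · rw [Finset.not_nonempty_iff_eq_empty] at hKne
      subst hKne
      apply criterion G Finset.univ Finset.univ 0 ⟨⟨0, hn⟩, Finset.mem_univ _⟩
        ⟨⟨0, hn⟩, Finset.mem_univ _⟩
      · intro x _
        rw [Nat.le_zero, Finset.card_eq_zero, Finset.filter_eq_empty_iff]
        intro y _
        exact hI x (Finset.notMem_empty x) y (Finset.notMem_empty y)
      · intro x _
        rw [Finset.card_univ, h0]
        omega

end Pool.Agent.Results.MP_a2d8aa_co.RegularSplitDegenerate
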